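import Pool.Agent.R696.RG.Rational
set_option autoImplicit false

/-!
# The homological Parshin conjecture and the fields `𝔽_p(t_1, ..., t_d)`

For a field `F` of transcendence degree `e` over `𝔽_p` one has `H_i^c(F, ℚ(m)) = H^(2e-i)(F, ℚ(e-m))`.
It is known (Geisser) that `P_m` for the smooth projective schemes of dimension at most `d` is equivalent
to `H_i^c(F, ℚ(m)) = 0` for `i ≠ e + m`, that is `H^j(F, ℚ(e-m)) = 0` for `j ≠ e - m`, for all finitely
generated fields `F` of transcendence degree `e ≤ d`, together with the same statements for `P_(m-1)` and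
`d - 1` and so on, which follow from it.
-/

namespace Pool.Agent.Results.MP_7923e9_ag.PurelyTranscendentalFields

open Pool.Agent.R388.BS Pool.Agent.R696.RG

/-- `H^j(F, ℚ(d-m)) = 0` for all `j ≠ d - m` and all fields `F` of characteristic `p` and of
transcendence degree at most `d`. -/
def FieldsUpTo (T : FieldCohomology) (p : ℕ) [Fact p.Prime] (m : ℤ) (d : ℕ) : Prop :=
  ∀ (F : Type) [Field F] [Algebra (ZMod p) F], Algebra.trdeg (ZMod p) F ≤ d →
    ∀ j : ℤ, j ≠ d - m → Zero T F j (d - m)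

/-- `H^j(F, ℚ(d-m)) = 0` for all `j ≠ d - m` and `F = 𝔽_p(t_1, ..., t_d)`. -/
def Generic (T : FieldCohomology) (p : ℕ) [Fact p.Prime] (m : ℤ) (d : ℕ) : Prop :=
  ∀ j : ℤ, j ≠ d - m → Zero T (FractionRing (MvPolynomial (Fin d) (ZMod p))) j (d - m)

variable {T : FieldCohomology} {p : ℕ} [Fact p.Prime]

theorem one (hT : IsMotivic T) (hq : TorsionFree T)
    (hp : ∀ j n : ℤ, j ≠ n → Zero T (ZMod p) j n) (m : ℤ) (d : ℕ) :
    FieldsUpTo T p m d ↔ Generic T p m (d + 1) := by
  constructor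
  · intro h j hj
    refine zero_up hT (hp j _ hj) fun F _ _ hF => ?_
    have h1 := h F hF (j - 1) (by push_cast at hj; omega)
    have e1 : ((d + 1 : ℕ) : ℤ) - m - 1 = d - m := by push_cast; ring
    rw [e1]
    exact h1
  · intro h F _ _ hF j hj
    have h1 := zero_down hT hq (h (j + 1) (by push_cast; omega)) hF
    have e1 : ((d + 1 : ℕ) : ℤ) - m - 1 = d - m := by push_cast; ring
    rw [e1, add_sub_cancel_right] at h1
    exact h1

theorem generic_zero (hp : ∀ j n : ℤ, j ≠ n → Zero T (ZMod p) j n) (m : ℤ) : Generic T p m 0 := by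
  intro j hj
  obtain ⟨e⟩ := exists_equiv_fraction (ZMod p) 0
  have h1 : Zero T (Kf (ZMod p) 0) j ((0 : ℕ) - m) := by
    intro x
    obtain ⟨y, rfl⟩ := (sur_zero (T := T) (i := j) (n := ((0 : ℕ) - m)) (ZMod p) (vr (ZMod p))).1 x
    rw [hp j _ hj y, map_zero]
  exact h1.of_equiv e.toRingEquiv

theorem two (hT : IsMotivic T) (hq : TorsionFree T)
    (hp : ∀ j n : ℤ, j ≠ n → Zero T (ZMod p) j n) (m : ℤ) (d : ℕ) :
    (∀ e ≤ d, FieldsUpTo T p m e) ↔ ∀ e ≤ d + 1, Generic T p m e := by
  constructor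
  · intro h e he
    rcases e with _ | e
    · exact generic_zero hp m
    · exact (one hT hq hp m e).1 (h e (by omega))
  · intro h e he
    exact (one hT hq hp m e).2 (h (e + 1) (by omega))

theorem single (hT : IsMotivic T) (hq : TorsionFree T)
    (hp : ∀ j n : ℤ, j ≠ n → Zero T (ZMod p) j n) :
    (∀ (F : Type) [Field F] [CharP F p] (j n : ℤ), j ≠ n → Zero T F j n) ↔
      ∀ j n : ℤ, j ≠ n → Zero T (FractionRing (MvPolynomial ℕ (ZMod p))) j n := by
  constructor
  · intro h j n hj
    have : CharP (FractionRing (MvPolynomial ℕ (ZMod p))) p :=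
      charP_of_injective_algebraMap (algebraMap (ZMod p) _).injective p
    exact h _ j n hj
  · intro h F _ _ j n hj
    let _ := ZMod.algebra F p
    refine zero_of_fg (F := ZMod p) hT fun S => ?_
    have h1 : Algebra.EssFiniteType (ZMod p) (IntermediateField.adjoin (ZMod p) (S : Set F)) :=
      IntermediateField.essFiniteType_iff.2 (IntermediateField.fg_adjoin_of_finite S.finite_toSet)
    obtain ⟨r, hr⟩ := Cardinal.lt_aleph0.1
      (trdeg_lt_aleph0 (ZMod p) (IntermediateField.adjoin (ZMod p) (S : Set F)))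
    obtain ⟨e⟩ := exists_equiv_fraction (ZMod p) (r + 1)
    have h2 : Zero T (FractionRing (MvPolynomial (Fin (r + 1)) (ZMod p))) (j + 1) (n + 1) :=
      zero_hom hT hq ((algebraMap (Kf (ZMod p) (r + 1)) (Rat (ZMod p))).comp
        e.toRingEquiv.toRingHom) (h (j + 1) (n + 1) (by omega))
    have h3 := zero_down hT hq h2 hr.le
    rwa [add_sub_cancel_right, add_sub_cancel_right] at h3

/-- Let `T`, `H^j(F, n)`, be a cohomology theory of fields with the formal properties of the motivic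
cohomology `H^j(F, ℚ(n))` with rational coefficients, and with `H^j(𝔽_p, n) = 0` for `j ≠ n`.

1. For all `m` and `d`: `H^j(F, d-m) = 0` for `j ≠ d - m` for all fields `F` of characteristic `p` and
   transcendence degree at most `d` if and only if `H^j(K, d+1-m) = 0` for `j ≠ d + 1 - m` for
   `K = 𝔽_p(t_1, ..., t_(d+1))`.
2. The same for all `e ≤ d` (and all the fields `𝔽_p(t_1, ..., t_e)`, `e ≤ d + 1`).
3. The same for all `d`.
4. `H^j(F, n) = 0` for all `j ≠ n` and all fields `F` of characteristic `p` if and only if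
   `H^j(K, n) = 0` for all `j ≠ n` for the field `K = 𝔽_p(t_0, t_1, t_2, ...)`. -/
theorem result (T : FieldCohomology) (hT : IsMotivic T) (hq : TorsionFree T) (p : ℕ)
    [Fact p.Prime] (hp : ∀ j n : ℤ, j ≠ n → Zero T (ZMod p) j n) :
    (∀ (m : ℤ) (d : ℕ), FieldsUpTo T p m d ↔ Generic T p m (d + 1)) ∧
    (∀ (m : ℤ) (d : ℕ), (∀ e ≤ d, FieldsUpTo T p m e) ↔ ∀ e ≤ d + 1, Generic T p m e) ∧
    (∀ m : ℤ, (∀ d, FieldsUpTo T p m d) ↔ ∀ d, Generic T p m d) ∧
    ((∀ (F : Type) [Field F] [CharP F p] (j n : ℤ), j ≠ n → Zero T F j n) ↔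
      ∀ j n : ℤ, j ≠ n → Zero T (FractionRing (MvPolynomial ℕ (ZMod p))) j n) := by
  refine ⟨one hT hq hp, two hT hq hp, fun m => ⟨fun h d => ?_, fun h d => ?_⟩, single hT hq hp⟩
  · exact (two hT hq hp m d).1 (fun e _ => h e) d (by omega)
  · exact (one hT hq hp m d).2 (h (d + 1))

end Pool.Agent.Results.MP_7923e9_ag.PurelyTranscendentalFields
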