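import Pool.Agent.R904.PM.Main

/-!
# The statements `P_m` for motivic homology with compact support and trilinear forms

`Theory k` lists the standard properties of the comparison maps
`H_i^c(X, ℚ(m)) → H_{i-2m}(CH_m(W(X)) ⊗ ℚ)` of motivic homology with compact support and weight homology
for separated schemes `X` of finite type over a finite field `k`, `W(X)` the weight complex of Gillet and
Soulé. `H.Comparison X` says that these maps are isomorphisms for all `i` and `m`, `H.P m` and
`H.PDim m d` are the statements `P_m` and `P_m(d)`.
-/

set_option autoImplicit false

open Pool.Agent.R904.PM Pool.Agent.Y116.UV AlgebraicGeometry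

namespace Pool.Agent.Results.MP_7923e9_ag.TrilinearForms

/-- (1) `P_m` holds for all integers `m` if and only if the comparison is an isomorphism for the smooth
affine cubic hypersurfaces `T(x, y, z) = 1`, for all trilinear forms `T` over `k`, and if and only if it is
an isomorphism for all separated schemes of finite type. (2) For every `d`: `P_m(d)` for all `m`, the
comparison for all schemes of dimension at most `d`, and the comparison for the hypersurfaces
`T(x, y, z) = 1` of the trilinear forms with a block of at most `d + 2` variables are equivalent. (3) The
comparison is an isomorphism for `T(x, y, z) = 1`, if one of the blocks of variables has at most three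
variables. (4) The hypersurfaces `T(x, y, z) = 1` are smooth. -/
theorem result (k : Type) [Field k] [Finite k] (H : Theory k) :
    (((∀ m, H.P m) ↔
        ∀ (a b c : ℕ) (T : Fin a → Fin b → Fin c → k), H.Comparison (hypS T)) ∧
      ((∀ m, H.P m) ↔ ∀ X : Sch k, FT True X → H.Comparison X)) ∧
    (∀ d : ℕ, ((∀ m, H.PDim m d) ↔ H.Block (d + 2)) ∧
      ((∀ m, H.PDim m d) ↔
        ∀ X : Sch k, FT True X → topologicalKrullDim X.left ≤ d → H.Comparison X)) ∧
    H.Block 3 ∧ ∀ (a b c : ℕ) (T : Fin a → Fin b → Fin c → k), Smooth (hypS T).hom :=
  ⟨parshin_iff H, dim_iff H, block_three H, fun _ _ _ => Pool.Agent.Z125.UN.smooth_hypS⟩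

end Pool.Agent.Results.MP_7923e9_ag.TrilinearForms
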